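import Pool.Agent.ASO.Stmts4
import Pool.Agent.Helper32_ASO.HLNK
import Pool.Agent.Helper13_CC.Frob
import Pool.Agent.Helper25_K9.PRG

/-!
# Squad ASO, row WZE: the sums without conditions

Author: helper65.
-/

open scoped BigOperators

noncomputable section

namespace Pool.Agent.PP.SO.H65

open Pool.Agent.Helper51_AWC Pool.Agent.Helper79_WRA Pool.Agent.PP Pool.Agent.PP.KF
open Pool.Agent.PP.K9 Pool.Agent.PP.K9.H97 Pool.Agent.PP.H75 Pool.Agent.PP.T3

attribute [local instance] Ideal.Quotient.field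

section gen

variable {G : Type} [Group G]

theorem ncard_all {α : Type} (P : α → Prop) (h : ∀ z, P z) : {z | P z}.ncard = Nat.card α := by
  have h1 : {z | P z} = Set.univ := Set.eq_univ_of_forall h
  rw [h1, Set.ncard_univ]

/-- Frobenius -/
theorem frobS [Fintype G] [Fintype (Irr G)] (g : G) :
    ((Nat.card {p : G × G // p.1 * p.2 * p.1⁻¹ * p.2⁻¹ = g} : ℕ) : ℂ) =
      ∑ θ : Irr G, (Nat.card G : ℂ) * ((θ : G → ℂ) g / (θ : G → ℂ) 1) := by
  rw [Pool.Agent.Helper13_CC.frob G g, ← Finset.mul_sum]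
  rw [← finsum_set_coe_eq_finsum_mem (s := Irr G) (f := fun θ : G → ℂ => θ g / θ 1),
    finsum_eq_sum_of_fintype]

theorem kap_ncard (g : G) : {w : G × G | kap w.1 w.2 = g}.ncard =
    Nat.card {p : G × G // p.1 * p.2 * p.1⁻¹ * p.2⁻¹ = g} := by
  rw [← Nat.card_coe_set_eq]
  rfl

/-- the triples, sorted by the last component -/
def xxEquiv (g h : G) : XX g h ≃
    Σ u : G, {p : G × G // p.1 * p.2 * p.1⁻¹ * p.2⁻¹ = g * (u * h * u⁻¹)} where
  toFun w := ⟨w.1.2.2, ⟨(w.1.1, w.1.2.1), w.2⟩⟩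
  invFun s := ⟨(s.2.1.1, s.2.1.2, s.1), s.2.2⟩
  left_inv _ := rfl
  right_inv _ := rfl

theorem xx_card [Fintype G] [Fintype (Irr G)] (g h : G) : ((Nat.card (XX g h) : ℕ) : ℂ) =
    ∑ θ : Irr G, (Nat.card G : ℂ) ^ 2 * ((θ : G → ℂ) g / (θ : G → ℂ) 1) *
      ((θ : G → ℂ) h / (θ : G → ℂ) 1) := by
  classical
  rw [Nat.card_congr (xxEquiv g h), Nat.card_sigma, Nat.cast_sum]
  rw [Finset.sum_congr rfl fun u _ => frobS (g * (u * h * u⁻¹)), Finset.sum_comm]
  refine Finset.sum_congr rfl fun θ _ => ?_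
  have h1 : ∑ u : G, (θ : G → ℂ) (g * (u * h * u⁻¹)) =
      (Fintype.card G : ℂ) * (θ : G → ℂ) h * (θ : G → ℂ) g / (θ : G → ℂ) 1 := by
    rw [← Pool.Agent.Helper13_CC.sum_conj θ.2]
    exact Finset.sum_congr rfl fun u _ => irr_mul_comm θ.2 _ _
  rw [← Finset.mul_sum, ← Finset.sum_div, h1, Nat.card_eq_fintype_card]
  ring

end gen

section blk

variable {V₀ G : Type} [CommGroup V₀] [Group G] {M : Ideal (integralClosure ℤ ℂ)} [M.IsMaximal]

theorem cv_fc [Fintype G] (B : Bk (FF M) V₀ G) (c : V₀) {χ : G → ℂ} (hχ : χ ∈ Irr G) :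
    cv (fc B ⊥ c) χ = (Nat.card (B.C (Subgroup.zpowers c)) : ℂ)⁻¹ *
      ((Nat.card G : ℂ) * ∑ h : G, bh B (Subgroup.zpowers c) h * χ (B.i c * h)) / χ 1 := by
  have hcl : ∀ g h : G, χ (h * g * h⁻¹) = χ g := fun g h => irr_conj hχ g h
  have h2 := H32.sum_avg (B.C ⊥) (H32.C_bot B) (Nat.card (B.C (Subgroup.zpowers c)) : ℂ)⁻¹
    (bh B (Subgroup.zpowers c)) χ hcl (B.i c)
  unfold cv
  rw [finsum_eq_sum_of_fintype (fun h => bh B (Subgroup.zpowers c) h * χ (B.i c * h))] at h2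
  rw [← h2]
  congr 1
  refine finsum_congr fun g => ?_
  unfold fc
  rw [bot_sup_eq]

theorem irrE_sub {e : G → FF M} {f : (G → ℂ) → ℂ} [Fintype (Irr G)]
    (h0 : ∀ χ ∈ Irr G, χ ∉ IrrE M e → f χ = 0) :
    ∑ θ : Irr G, f (θ : G → ℂ) = ∑ᶠ χ ∈ IrrE M e, f χ := by
  rw [← finsum_eq_sum_of_fintype (fun θ : Irr G => f (θ : G → ℂ)),
    finsum_set_coe_eq_finsum_mem (s := Irr G) (f := f), finsum_mem_def, finsum_mem_def]
  refine finsum_congr fun χ => ?_
  by_cases h1 : χ ∈ IrrE M e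
  · have h2 : χ ∈ Irr G := h1.1
    rw [Set.indicator_of_mem h1, Set.indicator_of_mem h2]
  · rw [Set.indicator_of_notMem h1]
    by_cases h2 : χ ∈ Irr G
    · rw [Set.indicator_of_mem h2]
      exact h0 χ h2 h1
    · rw [Set.indicator_of_notMem h2]

/-- the double sum -/
theorem dbl [Fintype G] (B : Bk (FF M) V₀ G) (c d : V₀) (N : G → G → ℂ)
    [Fintype (Irr G)] (hN : ∀ g h, N g h = ∑ θ : Irr G, (Nat.card G : ℂ) ^ 2 *
      ((θ : G → ℂ) g / (θ : G → ℂ) 1) * ((θ : G → ℂ) h / (θ : G → ℂ) 1)) :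
    ((Nat.card (B.C (Subgroup.zpowers c)) : ℂ) * Nat.card (B.C (Subgroup.zpowers d)))⁻¹ *
      ∑ᶠ w : G × G, bh B (Subgroup.zpowers c) w.1 * bh B (Subgroup.zpowers d) w.2 *
        N (B.i c * w.1) (B.i d * w.2) =
    ∑ θ : Irr G, cv (fc B ⊥ c) (θ : G → ℂ) * cv (fc B ⊥ d) (θ : G → ℂ) := by
  rw [finsum_eq_sum_of_fintype]
  have h1 : ∀ w : G × G, bh B (Subgroup.zpowers c) w.1 * bh B (Subgroup.zpowers d) w.2 *
      N (B.i c * w.1) (B.i d * w.2) = ∑ θ : Irr G, (Nat.card G : ℂ) ^ 2 *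
        ((bh B (Subgroup.zpowers c) w.1 * (θ : G → ℂ) (B.i c * w.1)) *
          (bh B (Subgroup.zpowers d) w.2 * (θ : G → ℂ) (B.i d * w.2))) / (θ : G → ℂ) 1 ^ 2 := by
    intro w
    rw [hN, Finset.mul_sum]
    refine Finset.sum_congr rfl fun θ _ => ?_
    ring
  rw [Finset.sum_congr rfl fun w _ => h1 w, Finset.sum_comm, Finset.mul_sum]
  refine Finset.sum_congr rfl fun θ _ => ?_
  rw [cv_fc B c θ.2, cv_fc B d θ.2]
  have h2 : ∑ w : G × G, (Nat.card G : ℂ) ^ 2 *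
        ((bh B (Subgroup.zpowers c) w.1 * (θ : G → ℂ) (B.i c * w.1)) *
          (bh B (Subgroup.zpowers d) w.2 * (θ : G → ℂ) (B.i d * w.2))) / (θ : G → ℂ) 1 ^ 2 =
      (Nat.card G : ℂ) ^ 2 * ((∑ s : G, bh B (Subgroup.zpowers c) s * (θ : G → ℂ) (B.i c * s)) *
        ∑ t : G, bh B (Subgroup.zpowers d) t * (θ : G → ℂ) (B.i d * t)) / (θ : G → ℂ) 1 ^ 2 := by
    rw [← Finset.sum_div, ← Finset.mul_sum, Finset.sum_mul_sum, Fintype.sum_prod_type]
  rw [h2, mul_inv]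
  ring

theorem wze (smg : T3.SmgStmt) : WzeStmt := by
  intro ℓ _ M _ hℓ V₀ G _ _ _ _ E₀ hV B hB
  classical
  have := Fintype.ofFinite G
  have : Fintype (Irr G) := Fintype.ofFinite _
  -- (a)
  have hA : ∀ c : V₀, c ≠ 1 → ∀ χ ∈ Irr G, χ ∉ IrrE M B.e → cv (fc B ⊥ c) χ = 0 := by
    intro c hc χ hχ hn
    obtain ⟨-, hlc, h3⟩ := H32.hlnk ℓ M hℓ V₀ E₀ G B hB c
    have h1 : B.i c ≠ 1 := fun h => hc (hB.inj (by rw [h, map_one]))
    have h2 : El ℓ (B.i c) := ⟨1, by rw [pow_one, ← map_pow, hV c, map_one]⟩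
    have h4 := (smg ℓ M hℓ G (B.i c) 1 h1 h2 (Cu (B.i c)).one_mem K9.H25.reg_one
      (fun t : Cu (B.i c) => B.b (Subgroup.zpowers c) t) hlc.blk.blk.1 B.e hB.ld.blk.1).1
      hlc.und χ hχ hn
    rw [mul_one] at h4
    have h5 : gv M (Cu (B.i c)) (B.i c) (B.b (Subgroup.zpowers c)) χ = 0 := h4
    rw [h3 χ hχ, h5, mul_zero, zero_div]
  refine ⟨hA, ?_, ?_⟩
  · -- (b)
    intro κ hκ
    unfold L1
    rw [← irrE_sub (e := B.e) (f := fun χ => cv (fc B ⊥ κ) χ) (hA κ hκ),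
      finsum_eq_sum_of_fintype]
    have h1 : ∀ t : G, bh B (Subgroup.zpowers κ) t *
        ({w : G × G | kap w.1 w.2 = B.i κ * t}.ncard : ℂ) = ∑ θ : Irr G, (Nat.card G : ℂ) *
          (bh B (Subgroup.zpowers κ) t * (θ : G → ℂ) (B.i κ * t)) / (θ : G → ℂ) 1 := by
      intro t
      rw [kap_ncard, frobS, Finset.mul_sum]
      refine Finset.sum_congr rfl fun θ _ => ?_
      ring
    rw [Finset.sum_congr rfl fun t _ => h1 t, Finset.sum_comm, Finset.mul_sum]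
    refine Finset.sum_congr rfl fun θ _ => ?_
    rw [cv_fc B κ θ.2, ← Finset.sum_div, ← Finset.mul_sum]
    ring
  · -- (c)
    intro n m c d hc hd
    have hp : pL (∅ : Set (SS n V₀)) = ⊥ := by
      unfold pL
      have h1 : {p : V₀ | ∃ s ∈ (∅ : Set (SS n V₀)), s.2.2.1 = p} = ∅ := by
        ext p
        constructor
        · rintro ⟨s, hs, -⟩
          exact hs
        · intro h
          exact h.elim
      rw [h1, Subgroup.closure_empty]
    have hq : qL (∅ : Set (SS n V₀)) = ⊥ := by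
      unfold qL
      have h1 : {p : V₀ | ∃ s ∈ (∅ : Set (SS n V₀)), s.2.2.2 = p} = ∅ := by
        ext p
        constructor
        · rintro ⟨s, hs, -⟩
          exact hs
        · intro h
          exact h.elim
      rw [h1, Subgroup.closure_empty]
    have hL : L2 B c d = ∑ θ : Irr G, cv (fc B ⊥ c) (θ : G → ℂ) * cv (fc B ⊥ d) (θ : G → ℂ) := by
      unfold L2
      rw [← irrE_sub (e := B.e) (f := fun χ => cv (fc B ⊥ c) χ * cv (fc B ⊥ d) χ)
        (fun χ h1 h2 => by rw [hA c hc χ h1 h2, zero_mul])]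
    have hD := dbl B c d (fun g h => ((Nat.card (XX g h) : ℕ) : ℂ)) xx_card
    constructor
    · rw [hL, ← hD]
      unfold W13
      rw [hp, hq, bot_sup_eq, bot_sup_eq]
      congr 1
      refine finsum_congr fun w => ?_
      congr 2
      refine ncard_all _ fun z s hs => ?_
      exact absurd hs (Set.notMem_empty s)
    · rw [hL, ← hD]
      unfold W12
      rw [hp, hq, bot_sup_eq, bot_sup_eq]
      congr 1
      refine finsum_congr fun w => ?_
      congr 2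
      refine ncard_all _ fun z s hs => ?_
      exact absurd hs (Set.notMem_empty s)

end blk

end Pool.Agent.PP.SO.H65
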