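import Pool.Agent.ASO.Stmts7

/-!
# ASO, row CMP: the comparison block for a free action
-/

open scoped BigOperators

noncomputable section

namespace Pool.Agent.PP.SO.H65

open Pool.Agent.Helper51_AWC Pool.Agent.Helper79_WRA Pool.Agent.PP Pool.Agent.PP.KF
open Pool.Agent.PP.K9 Pool.Agent.PP.K9.H97 Pool.Agent.PP.H75 Pool.Agent.PP.T3

attribute [local instance] Ideal.Quotient.field

/-- a group of automorphisms which acts freely has order prime to `ℓ` -/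
theorem not_dvd_of_fr {ℓ : ℕ} [Fact ℓ.Prime] {V₀ : Type} [CommGroup V₀] [Finite V₀]
    {E₀ : Subgroup (MulAut V₀)} (hFr : Fr ℓ V₀ E₀) : ¬ ℓ ∣ Nat.card E₀ := by
  intro hdvd
  have hfin : Finite (MulAut V₀) := Finite.of_injective (fun σ : MulAut V₀ => (σ : V₀ → V₀))
    (fun σ τ h => MulEquiv.ext fun x => congrFun h x)
  obtain ⟨σ, hσ⟩ := exists_prime_orderOf_dvd_card' (G := E₀) ℓ hdvd
  have hσ1 : (σ : MulAut V₀) ≠ 1 := by
    intro h
    have h1 : σ = 1 := Subtype.ext h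
    rw [h1, orderOf_one] at hσ
    exact (Fact.out : ℓ.Prime).one_lt.ne hσ
  have hpow : (σ : MulAut V₀) ^ ℓ = 1 := by
    rw [← hσ]
    have h1 := pow_orderOf_eq_one σ
    have h2 := congrArg (Subtype.val) h1
    exact h2
  have hP : IsPGroup ℓ (Subgroup.zpowers (σ : MulAut V₀)) := by
    rintro ⟨x, hx⟩
    obtain ⟨k, rfl⟩ := Subgroup.mem_zpowers_iff.1 hx
    refine ⟨1, Subtype.ext ?_⟩
    change ((σ : MulAut V₀) ^ k) ^ ℓ ^ 1 = 1
    rw [pow_one, ← zpow_natCast, ← zpow_mul, mul_comm, zpow_mul, zpow_natCast, hpow, one_zpow]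
  have h1 : (1 : V₀) ∈ MulAction.fixedPoints (Subgroup.zpowers (σ : MulAut V₀)) V₀ := by
    intro g
    exact smul_one g
  obtain ⟨b, hb, hne⟩ := hP.exists_fixed_point_of_prime_dvd_card_of_fixed_point V₀
    (by rw [hFr.cd]; exact dvd_pow_self ℓ two_ne_zero) h1
  have h2 := hb ⟨(σ : MulAut V₀), Subgroup.mem_zpowers _⟩
  exact hne (hFr.fr σ σ.2 hσ1 b h2).symm

/-- row CMP -/
theorem cmp (cmb : CmbStmt) : CmpStmt := by
  intro ℓ _ M _ hM hℓ2 V₀ _ _ E₀ hFr k U hU1 hU2 hU3 r hr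
  have hℓ : ℓ.Prime := Fact.out
  obtain ⟨G, _, _, B, hSb, hn, hEl, hD, hS, hW⟩ := cmb ℓ M hM hℓ2 V₀ hFr.ex hFr.cd E₀
    (not_dvd_of_fr hFr) k U hU1 hU2 hU3
  have hfree : ∀ W : Subgroup V₀, W ≠ ⊥ → ∀ σ ∈ E₀, (∀ w ∈ W, σ w = w) → σ = 1 := by
    intro W hW0 σ hσ hfix
    by_contra h1
    apply hW0
    rw [Subgroup.eq_bot_iff_forall]
    intro w hw
    exact hFr.fr σ hσ h1 w (hfix w hw)
  -- the exponent
  obtain ⟨a, c, hc, hcard⟩ := Nat.exists_eq_pow_mul_and_not_dvd (n := Nat.card G)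
    Nat.card_pos.ne' ℓ hℓ.ne_one
  have hco : Nat.Coprime ℓ c := (Nat.Prime.coprime_iff_not_dvd hℓ).2 hc
  obtain ⟨m, hm1, hm2⟩ := Nat.chineseRemainder hco 1 0
  have hmc : c ∣ m := (Nat.modEq_zero_iff_dvd).1 hm2
  refine ⟨G, inferInstance, inferInstance, B, m, ⟨hSb, ?_, ?_, ?_⟩, ⟨⟨r, hr, rfl⟩, ?_, ?_, ?_⟩, hn,
    ?_⟩
  · intro W hW0
    rw [hD W]
    exact (hW W hW0 (hfree W hW0)).1
  · intro W _
    exact Or.inl (hS W)
  · intro W hW0
    exact (hW W hW0 (hfree W hW0)).2.1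
  · have h1 : m % ℓ = 1 % ℓ := hm1
    rw [h1]
    exact Nat.mod_eq_of_lt hℓ.one_lt
  · intro g hg
    have h1 := hEl g hg
    refine ⟨?_, ?_⟩
    · have h2 : g ^ m = g ^ 1 := by
        rw [pow_eq_pow_iff_modEq]
        exact hm1.of_dvd (orderOf_dvd_of_pow_eq_one h1)
      rw [h2, pow_one]
    · obtain ⟨s, rfl⟩ : ∃ s, r = s + 1 := ⟨r - 1, by omega⟩
      rw [pow_succ', pow_mul, h1, one_pow]
  · intro g hg
    have h1 : orderOf g ∣ ℓ ^ a * c := by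
      rw [← hcard]
      exact orderOf_dvd_natCard g
    have h2 : orderOf g ∣ c := by
      refine Nat.Coprime.dvd_of_dvd_mul_left ?_ h1
      exact Nat.Coprime.pow_right a hg
    exact orderOf_dvd_iff_pow_eq_one.1 (h2.trans hmc)
  · intro W hW0
    exact (hW W hW0 (hfree W hW0)).2.2

end Pool.Agent.PP.SO.H65
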