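import Pool.Agent.ASO.StmtsH
import Pool.Agent.Helper88_AT3.Loc
import Pool.Agent.Helper49_AT3.BRG
import Pool.Agent.Helper25_KF.Idm

/-!
# ASO, row HKB: the number of the characters of the block is at most `ℓ ^ 2`
-/

open scoped BigOperators

noncomputable section

namespace Pool.Agent.PP.SO.H65

open Pool.Agent.Helper51_AWC Pool.Agent.Helper79_WRA Pool.Agent.PP Pool.Agent.PP.KF
open Pool.Agent.PP.K9 Pool.Agent.PP.K9.H97 Pool.Agent.PP.H75 Pool.Agent.PP.T3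

attribute [local instance] Ideal.Quotient.field

/-- a central idempotent which is not zero has a character -/
theorem irrE_nonempty (M : Ideal (integralClosure ℤ ℂ)) [M.IsMaximal] {H : Type} [Group H]
    [Finite H] {b : H → FF M} (hb : IsIdem b) (h0 : b ≠ 0) : ∃ κ, κ ∈ IrrE M b := by
  by_contra hcon
  push Not at hcon
  apply h0
  funext g
  have h1 := ((KF.H25.idm M H b hb).1 g).2
  rw [← h1]
  have h2 : IrrE M b = ∅ := Set.eq_empty_of_forall_notMem hcon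
  rw [eh, h2, finsum_mem_empty, mul_zero, rr_zero]
  rfl

/-- the numbers below `ℓ` which are prime to `ℓ` -/
theorem card_pr {ℓ : ℕ} (hℓ : ℓ.Prime) :
    ((Finset.range (ℓ ^ 1)).filter (fun j => ¬ ℓ ∣ j)).card = ℓ - 1 := by
  have h1 : (Finset.range (ℓ ^ 1)).filter (fun j => ¬ ℓ ∣ j) = (Finset.range ℓ).erase 0 := by
    ext j
    rw [pow_one, Finset.mem_filter, Finset.mem_erase, Finset.mem_range]
    constructor
    · rintro ⟨h2, h3⟩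
      refine ⟨?_, h2⟩
      rintro rfl
      exact h3 (dvd_zero ℓ)
    · rintro ⟨h2, h3⟩
      exact ⟨h3, fun h4 => absurd (Nat.le_of_dvd (Nat.pos_of_ne_zero h2) h4) (by omega)⟩
  rw [h1, Finset.card_erase_of_mem (Finset.mem_range.2 hℓ.pos), Finset.card_range]

/-- row HKB -/
theorem hkb (hlnk : HLnkStmt) (hixe : HIxeStmt) (homr : HOmrStmt) (rgl : T3.RglStmt)
    (inr : T3.InrStmt) (glp : T3.GlpStmt) (co1 : T3.Co1Stmt) (lpw : T3.LpwStmt) : HKbStmt := by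
  intro ℓ _ M _ hM V₀ _ _ hexp hcard E₀ G _ _ B hB c hc
  classical
  have hℓ : ℓ.Prime := Fact.out
  have hF : GoodF ℓ (FF M) := H50.fld ℓ hℓ M hM
  have hfin : (IrrE M B.e).Finite := T3.H49.irrE_fin M B.e
  obtain ⟨-, x2, -, x4⟩ := hixe ℓ M hM V₀ E₀ G B hB
  obtain ⟨-, -, x5, x6⟩ := x4 c
  have hRg : Rg B.i.range B.g (B.i c) := x5 hc
  obtain ⟨b, d, hLc, hDg, hn, -⟩ := rgl ℓ M hM G B.e B.i.range B.g hB.ld (B.i c) hRg
  obtain ⟨-, y2, y3⟩ := hlnk ℓ M hM V₀ E₀ G B hB c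
  have hbb : B.b (Subgroup.zpowers c) = b :=
    (T3.H88.loc ℓ (FF M) hF G B.e B.i.range B.g hB.ld (B.i c) hRg.1).2 _ _ y2 hLc
  rw [hbb] at y3
  have hV : Nat.card B.i.range = ℓ ^ 2 := by
    rw [← hcard]
    exact (Nat.card_congr (MonoidHom.ofInjective hB.inj).toEquiv).symm
  rw [hV] at hn
  obtain ⟨u, hu⟩ : ∃ u : G, u = B.i c := ⟨_, rfl⟩
  rw [← hu] at hRg hLc y3
  have hDg' : Dg M (fun t : Cu u => b t) d := by
    rw [hu]
    exact hDg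
  have hn' : (IrrE M (fun t : Cu u => b t)).ncard = ℓ ^ 2 := by
    rw [hu]
    exact hn
  have huℓ : u ^ ℓ = 1 := by
    rw [hu, ← map_pow, hexp c, map_one]
  have hd : 0 < d := hDg'.1
  have hζ := Complex.isPrimitiveRoot_exp ℓ hℓ.pos.ne'
  obtain ⟨ζ, hζe⟩ : ∃ ζ : ℂ, ζ = Complex.exp (2 * Real.pi * Complex.I / ℓ) := ⟨_, rfl⟩
  rw [← hζe] at hζ
  obtain ⟨J, hJ⟩ : ∃ J : Finset ℕ, J = (Finset.range (ℓ ^ 1)).filter (fun j => ¬ ℓ ∣ j) := ⟨_, rfl⟩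
  have hJc : J.card = ℓ - 1 := by
    rw [hJ]
    exact card_pr hℓ
  -- the values are not zero
  have hne : ∀ χ ∈ IrrE M B.e, gv M (Cu u) u b χ ≠ 0 := by
    intro χ hχ h0
    obtain ⟨-, o2⟩ := homr ℓ M hM V₀ E₀ G B hB c χ hχ
    rw [y3 χ hχ.1, h0, mul_zero, zero_div, rr_zero, x6 hc] at o2
    have := hF.char
    exact x2 ((CharP.cast_eq_zero_iff (FF M) ℓ _).1 o2.symm)
  -- the lower bound
  have key1 : ∀ χ ∈ IrrE M B.e, ((ℓ - 1 : ℕ) : ℝ) * (d : ℝ) ^ 2 ≤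
      ∑ j ∈ J, Complex.normSq (gv M (Cu u) (u ^ j) b χ) := by
    intro χ hχ
    obtain ⟨m, hm⟩ := inr M G u ℓ hℓ.pos huℓ b hLc.blk.ix d hDg' ζ hζ χ hχ.1
    have h1 : ∑ i ∈ Finset.range (ℓ ^ 1), (m i : ℂ) * ζ ^ i ≠ 0 := by
      intro h0
      apply hne χ hχ
      have h2 := hm 1
      rw [pow_one] at h2 h0
      rw [h2]
      simp_rw [mul_one]
      rw [h0, mul_zero]
    have h3 := (glp ℓ 1 one_pos ζ (by rw [pow_one]; exact hζ) m h1).1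
    rw [← hJ] at h3
    have h4 : ∑ j ∈ J, Complex.normSq (gv M (Cu u) (u ^ j) b χ) = (d : ℝ) ^ 2 *
        ∑ j ∈ J, Complex.normSq (∑ i ∈ Finset.range (ℓ ^ 1), (m i : ℂ) * ζ ^ (i * j)) := by
      rw [Finset.mul_sum]
      refine Finset.sum_congr rfl fun j _ => ?_
      rw [hm j, pow_one, Complex.normSq_mul, Complex.normSq_natCast]
      ring
    rw [h4]
    have h5 : ((ℓ ^ (1 - 1) * (ℓ - 1) : ℕ) : ℝ) = ((ℓ - 1 : ℕ) : ℝ) := by
      rw [Nat.sub_self, pow_zero, one_mul]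
    rw [h5] at h3
    have h6 : (0 : ℝ) ≤ (d : ℝ) ^ 2 := sq_nonneg _
    nlinarith
  -- the upper bound
  have hIf : (Irr G).Finite := T3.H49.irr_fin G
  have key2 : ∀ j ∈ J, ∑ χ ∈ hIf.toFinset, Complex.normSq (gv M (Cu u) (u ^ j) b χ) =
      (ℓ : ℝ) ^ 2 * (d : ℝ) ^ 2 := by
    intro j hj
    rw [hJ, Finset.mem_filter] at hj
    obtain ⟨hCu, hLj⟩ := lpw ℓ (FF M) hF G B.e B.i.range B.g hB.ld u hRg.1 b hLc j hj.2
    have h1 := co1 ℓ M hM G (u ^ j) (T3.H88.el_of_mem hB.ld.tp.pg (pow_mem hRg.1 j)) b hLj.blk.ix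
    rw [hCu, finsum_mem_eq_finite_toFinset_sum _ hIf] at h1
    have hIb : (IrrE M (fun t : Cu u => b t)).Finite := T3.H49.irrE_fin M _
    have h2 : ∑ᶠ κ ∈ IrrE M (fun t : Cu u => b t), κ 1 ^ 2 = (ℓ : ℂ) ^ 2 * (d : ℂ) ^ 2 := by
      rw [finsum_mem_congr rfl (fun κ hκ => by rw [hDg'.2 κ hκ] :
        ∀ κ ∈ IrrE M (fun t : Cu u => b t), κ 1 ^ 2 = (d : ℂ) ^ 2),
        finsum_mem_eq_finite_toFinset_sum _ hIb, Finset.sum_const,
        ← Set.ncard_eq_toFinset_card _ hIb, hn', nsmul_eq_mul]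
      push_cast
      ring
    rw [h2] at h1
    have h3 : ((∑ χ ∈ hIf.toFinset, Complex.normSq (gv M (Cu u) (u ^ j) b χ) : ℝ) : ℂ) =
        (((ℓ : ℝ) ^ 2 * (d : ℝ) ^ 2 : ℝ) : ℂ) := by
      push_cast
      rw [← h1]
      refine Finset.sum_congr rfl fun χ _ => ?_
      rw [Complex.mul_conj]
    exact_mod_cast h3
  have hsub : hfin.toFinset ⊆ hIf.toFinset := by
    intro χ hχ
    rw [Set.Finite.mem_toFinset] at hχ ⊢
    exact hχ.1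
  have hmain : (hfin.toFinset.card : ℝ) * (((ℓ - 1 : ℕ) : ℝ) * (d : ℝ) ^ 2) ≤
      ((ℓ - 1 : ℕ) : ℝ) * ((ℓ : ℝ) ^ 2 * (d : ℝ) ^ 2) := by
    calc (hfin.toFinset.card : ℝ) * (((ℓ - 1 : ℕ) : ℝ) * (d : ℝ) ^ 2)
        = ∑ χ ∈ hfin.toFinset, ((ℓ - 1 : ℕ) : ℝ) * (d : ℝ) ^ 2 := by
          rw [Finset.sum_const, nsmul_eq_mul]
      _ ≤ ∑ χ ∈ hfin.toFinset, ∑ j ∈ J, Complex.normSq (gv M (Cu u) (u ^ j) b χ) :=
          Finset.sum_le_sum fun χ hχ => key1 χ ((Set.Finite.mem_toFinset hfin).1 hχ)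
      _ ≤ ∑ χ ∈ hIf.toFinset, ∑ j ∈ J, Complex.normSq (gv M (Cu u) (u ^ j) b χ) :=
          Finset.sum_le_sum_of_subset_of_nonneg hsub fun χ _ _ =>
            Finset.sum_nonneg fun j _ => Complex.normSq_nonneg _
      _ = ∑ j ∈ J, ∑ χ ∈ hIf.toFinset, Complex.normSq (gv M (Cu u) (u ^ j) b χ) :=
          Finset.sum_comm
      _ = ∑ j ∈ J, (ℓ : ℝ) ^ 2 * (d : ℝ) ^ 2 := Finset.sum_congr rfl key2
      _ = ((ℓ - 1 : ℕ) : ℝ) * ((ℓ : ℝ) ^ 2 * (d : ℝ) ^ 2) := by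
          rw [Finset.sum_const, hJc, nsmul_eq_mul]
  have hnc : (IrrE M B.e).ncard = hfin.toFinset.card := Set.ncard_eq_toFinset_card _ hfin
  refine ⟨hfin, ?_, ?_⟩
  · rw [Set.ncard_pos hfin]
    exact irrE_nonempty M hB.ld.blk.1 hB.ld.blk.2.1
  · rw [hnc]
    have hp : (0 : ℝ) < ((ℓ - 1 : ℕ) : ℝ) * (d : ℝ) ^ 2 := by
      have h1 : 0 < ℓ - 1 := by
        have := hℓ.two_le
        omega
      have h2 : (0 : ℝ) < ((ℓ - 1 : ℕ) : ℝ) := by exact_mod_cast h1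
      have h3 : (0 : ℝ) < (d : ℝ) := by exact_mod_cast hd
      positivity
    have h4 : (hfin.toFinset.card : ℝ) ≤ (ℓ : ℝ) ^ 2 := by
      refine le_of_mul_le_mul_right ?_ hp
      refine hmain.trans (le_of_eq ?_)
      ring
    exact_mod_cast h4

end Pool.Agent.PP.SO.H65
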